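import Pool.Agent.Lib.MP_1bbd88_ag.Limit
import Pool.Agent.Lib.MP_1bbd88_ag.Quad

/-! The inequality of Watanabe and Yoshida for determinantal rings.

`Minors t M` is the ideal generated by the `t × t` minors of the matrix `M`. -/

set_option autoImplicit false

namespace Pool.Agent.Results.MP_1bbd88_ag.Determinantal

open Filter Topology Module

/-- The algebraic closure of the field with `p` elements. -/
abbrev K (p : ℕ) [Fact p.Prime] : Type := AlgebraicClosure (ZMod p)

/-- The bracket power `I^[q]`: the ideal generated by the `q`-th powers of the elements of `I`. -/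
def Bracket {A : Type} [CommRing A] (I : Ideal A) (q : ℕ) : Ideal A :=
  Ideal.span ((fun x => x ^ q) '' (I : Set A))

/-- The number `ℓ_A (A / m^[p^e]) / p^(e d)` for a local ring `A` with maximal ideal `m`. -/
noncomputable def hkSeq (p d : ℕ) (A : Type) [CommRing A] [IsLocalRing A] (e : ℕ) : ℝ :=
  ((Module.length A (A ⧸ Bracket (IsLocalRing.maximalIdeal A) (p ^ e))).toNat : ℝ) /
    (p : ℝ) ^ (e * d)

/-- The ideal generated by the `t × t` minors of the matrix `M`. -/
def Minors {R : Type} [CommRing R] {m n : ℕ} (t : ℕ) (M : Matrix (Fin m) (Fin n) R) : Ideal R :=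
  Ideal.span (Set.range fun rc : (Fin t → Fin m) × (Fin t → Fin n) =>
    (M.submatrix rc.1 rc.2).det)

/-- The ring `A_{p,d} = K[[X_0, …, X_d]] / (X_0^2 + … + X_d^2)`. -/
abbrev Apd (p : ℕ) [Fact p.Prime] (d : ℕ) : Type :=
  MvPowerSeries (Fin (d + 1)) (K p) ⧸
    Ideal.span {∑ i : Fin (d + 1), (MvPowerSeries.X i : MvPowerSeries (Fin (d + 1)) (K p)) ^ 2}

instance (p : ℕ) [Fact p.Prime] (d : ℕ) : IsLocalRing (Apd p d) := by
  have h1 : Ideal.span {∑ i : Fin (d + 1), (MvPowerSeries.X i :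
      MvPowerSeries (Fin (d + 1)) (K p)) ^ 2} ≤
      RingHom.ker (MvPowerSeries.constantCoeff (σ := Fin (d + 1)) (R := K p)) := by
    rw [Ideal.span_le, Set.singleton_subset_iff, SetLike.mem_coe, RingHom.mem_ker, map_sum]
    refine Finset.sum_eq_zero fun i _ => ?_
    rw [map_pow, MvPowerSeries.constantCoeff_X]
    exact zero_pow (by norm_num)
  have h2 : Nontrivial (Apd p d) := by
    apply Ideal.Quotient.nontrivial_iff.mpr
    intro h
    rw [h, top_le_iff] at h1
    have h3 : (1 : MvPowerSeries (Fin (d + 1)) (K p)) ∈ RingHom.ker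
        (MvPowerSeries.constantCoeff (σ := Fin (d + 1)) (R := K p)) := by
      rw [h1]
      trivial
    rw [RingHom.mem_ker, map_one] at h3
    exact one_ne_zero h3
  exact IsLocalRing.of_surjective' (Ideal.Quotient.mk _) Ideal.Quotient.mk_surjective

/-- Let `p > 2`, `d ≥ 2`, and let `A` be a local ring of dimension `d` which is the quotient of a
power series ring `S` over `K p` by the ideal of `t`-minors, `t ≥ 2`, of an `m × n` matrix without
units, of the expected codimension `c = (m - t + 1) (n - t + 1) ≥ 2`. -/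
theorem result (p : ℕ) [Fact p.Prime] (hp : 2 < p) (d : ℕ) (hd : 2 ≤ d) (N m n t : ℕ)
    (ht : 2 ≤ t) (hm : t ≤ m) (hn : t ≤ n) (hc : 2 ≤ (m - t + 1) * (n - t + 1))
    (hN : N = d + (m - t + 1) * (n - t + 1))
    (M : Matrix (Fin m) (Fin n) (MvPowerSeries (Fin N) (K p)))
    (hM : ∀ i j, MvPowerSeries.constantCoeff (M i j) = 0)
    (A : Type) [CommRing A] [IsLocalRing A] (_ : ringKrullDim A = d)
    (φ : (MvPowerSeries (Fin N) (K p) ⧸ Minors t M) ≃+* A) :
    (∀ ε : ℝ, 0 < ε → ∀ᶠ e in atTop, 13 / 8 - ε ≤ hkSeq p d A e) ∧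
    (∀ e, hkSeq p d (Apd p d) e ≤ 3 / 2) ∧
    ∀ c c' : ℝ, Tendsto (hkSeq p d A) atTop (𝓝 c) → Tendsto (hkSeq p d (Apd p d)) atTop (𝓝 c') →
      c' ≤ 3 / 2 ∧ 13 / 8 ≤ c ∧ c' < c := by
  have hp2 : p ≠ 2 := by omega
  have hp1 : 1 < p := by omega
  have hpe : ∀ e : ℕ, (0 : ℝ) < (p : ℝ) ^ e := fun e => by positivity
  have : CharP (K p) p := inferInstance
  have hinf : Infinite (K p) := inferInstance
  obtain ⟨s, rfl⟩ : ∃ s, t = 2 + s := ⟨t - 2, by omega⟩
  obtain ⟨a, rfl⟩ : ∃ a, m = a + s := ⟨m - s, by omega⟩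
  obtain ⟨b, rfl⟩ : ∃ b, n = b + s := ⟨n - s, by omega⟩
  have e1 : a + s - (2 + s) + 1 = a - 1 := by omega
  have e2 : b + s - (2 + s) + 1 = b - 1 := by omega
  rw [e1, e2] at hc hN
  have ha : 2 ≤ a := by omega
  have hb : 2 ≤ b := by omega
  have hab : ¬ (a = 2 ∧ b = 2) := by
    rintro ⟨rfl, rfl⟩
    norm_num at hc
  -- the lower bound
  have hlow : ∀ ε : ℝ, 0 < ε → ∀ᶠ e in atTop, 13 / 8 - ε ≤ hkSeq p d A e := by
    obtain ⟨g, L, hL, hg, hmany⟩ := Pool.Agent.Lib.MP_1bbd88_ag.asym ha hb hab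
    intro ε hε
    have h1 : Tendsto (fun e : ℕ => p ^ e) atTop atTop := tendsto_pow_atTop_atTop_of_one_lt hp1
    have h2 := hg.comp h1
    have h3 : ∀ᶠ e in atTop, L - ε < g (p ^ e) / ((p ^ e : ℕ) : ℝ) ^ (a + b - 1) :=
      h2.eventually (lt_mem_nhds (by linarith))
    filter_upwards [h3, eventually_ge_atTop 1] with e he he1
    have hq2 : 2 ≤ p ^ e := by
      calc 2 ≤ p ^ 1 := by rw [pow_one]; omega
        _ ≤ p ^ e := Nat.pow_le_pow_right (by omega) he1
    have h4 := (hmany (p ^ e) hq2).le (k := K p)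
    have h5 := Pool.Agent.Lib.MP_1bbd88_ag.lower_length (k := K p) (p := p) e 2 a b s M hM
      ((φ : _ →+* A).comp (Ideal.Quotient.mk (Minors (2 + s) M)))
      (φ.surjective.comp Ideal.Quotient.mk_surjective) (by
        ext x
        rw [RingHom.mem_ker, RingHom.comp_apply]
        change φ (Ideal.Quotient.mk (Minors (2 + s) M) x) = 0 ↔ x ∈ Minors (2 + s) M
        rw [map_eq_zero_iff φ φ.injective, Ideal.Quotient.eq_zero_iff_mem])
    set len := (Module.length A (A ⧸ Pool.Agent.Lib.MP_1bbd88_ag.bracket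
      (IsLocalRing.maximalIdeal A) (p ^ e))).toNat with hlen
    have h6 : hkSeq p d A e = (len : ℝ) / (p : ℝ) ^ (e * d) := rfl
    rw [h6]
    set q : ℝ := (p : ℝ) ^ e with hq
    have hqpos : 0 < q := hpe e
    have h7 : (q : ℝ) ^ N * (Pool.Agent.Lib.MP_1bbd88_ag.genColen (K p) 2 a b (p ^ e) : ℝ) ≤
        q ^ (a * b) * len := by
      rw [hq]
      exact_mod_cast h5
    have h8 : ((p ^ e : ℕ) : ℝ) = q := by
      rw [hq]
      push_cast
      rfl
    rw [h8] at he
    have h9 : (L - ε) * q ^ (a + b - 1) < g (p ^ e) := by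
      rwa [lt_div_iff₀ (by positivity)] at he
    have h10 : q ^ N * ((L - ε) * q ^ (a + b - 1)) ≤ q ^ (a * b) * len := by
      refine le_trans ?_ h7
      exact mul_le_mul_of_nonneg_left (h9.le.trans h4) (by positivity)
    have h11 : N + (a + b - 1) = a * b + d := by
      obtain ⟨a', rfl⟩ : ∃ a', a = a' + 1 := ⟨a - 1, by omega⟩
      obtain ⟨b', rfl⟩ : ∃ b', b = b' + 1 := ⟨b - 1, by omega⟩
      rw [hN]
      simp only [Nat.add_sub_cancel]
      have : a' + 1 + (b' + 1) - 1 = a' + b' + 1 := by omega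
      rw [this]
      ring
    have h12 : q ^ (a * b) * ((L - ε) * q ^ d) ≤ q ^ (a * b) * len := by
      have h13 : q ^ N * ((L - ε) * q ^ (a + b - 1)) = q ^ (a * b) * ((L - ε) * q ^ d) := by
        have h14 : q ^ N * q ^ (a + b - 1) = q ^ (a * b) * q ^ d := by
          rw [← pow_add, ← pow_add, h11]
        linear_combination (L - ε) * h14
      rw [← h13]
      exact h10
    have h15 : (L - ε) * q ^ d ≤ len := le_of_mul_le_mul_left h12 (by positivity)
    have h16 : (p : ℝ) ^ (e * d) = q ^ d := by rw [hq, pow_mul]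
    rw [h16, le_div_iff₀ (by positivity)]
    refine le_trans ?_ h15
    exact mul_le_mul_of_nonneg_right (by linarith) (by positivity)
  -- the upper bound
  have hup : ∀ e, hkSeq p d (Apd p d) e ≤ 3 / 2 := by
    intro e
    obtain ⟨d', rfl⟩ : ∃ d', d = d' + 2 := ⟨d - 2, by omega⟩
    obtain ⟨i, hi⟩ : ∃ i : K p, i ^ 2 = -1 := IsAlgClosed.exists_pow_nat_eq (-1 : K p) (by norm_num)
    have h1 := Pool.Agent.Lib.MP_1bbd88_ag.quad_upper (k := K p) (p := p) hp2 hi e d'
    have h2 := Pool.Agent.Lib.MP_1bbd88_ag.length_quot (k := K p) (N := d' + 3) (p := p) (e := e)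
      (A := Apd p (d' + 2)) (Ideal.Quotient.mk _) Ideal.Quotient.mk_surjective
    rw [Ideal.mk_ker] at h2
    have h3 : hkSeq p (d' + 2) (Apd p (d' + 2)) e = ((Module.length (Apd p (d' + 2))
      (Apd p (d' + 2) ⧸ Pool.Agent.Lib.MP_1bbd88_ag.bracket
        (IsLocalRing.maximalIdeal (Apd p (d' + 2))) (p ^ e))).toNat : ℝ) /
          (p : ℝ) ^ (e * (d' + 2)) := rfl
    rw [h3, h2, ENat.toNat_natCast, div_le_iff₀ (by positivity), pow_mul]
    set r := finrank (K p) (MvPowerSeries (Fin (d' + 3)) (K p) ⧸ (Ideal.span {∑ i, MvPowerSeries.X i ^ 2} ⊔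
        Pool.Agent.Lib.MP_1bbd88_ag.psI (Fin (d' + 3)) (K p) (p ^ e))) with hr
    have h4 : 2 * (r : ℝ) + ((p : ℝ) ^ e) ^ d' ≤ 3 * ((p : ℝ) ^ e) ^ (d' + 2) := by
      exact_mod_cast h1
    have h5 : (0 : ℝ) < ((p : ℝ) ^ e) ^ d' := by positivity
    linarith
  refine ⟨hlow, hup, fun c c' hc1 hc2 => ?_⟩
  have hc3 : c' ≤ 3 / 2 := le_of_tendsto' hc2 hup
  have hc4 : 13 / 8 ≤ c := by
    by_contra hcon
    push Not at hcon
    have h1 := hlow ((13 / 8 - c) / 2) (by linarith)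
    have h2 : ∀ᶠ e in atTop, hkSeq p d A e < 13 / 8 - (13 / 8 - c) / 2 :=
      hc1.eventually (gt_mem_nhds (by linarith))
    obtain ⟨e, he1, he2⟩ := (h1.and h2).exists
    linarith
  exact ⟨hc3, hc4, by linarith⟩

end Pool.Agent.Results.MP_1bbd88_ag.Determinantal
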