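import Pool.Agent.Lib.MP_1bbd88_ag.Q.NS.Main2
import Pool.Agent.Lib.MP_1bbd88_ag.Quad8

/-! The inequality of Watanabe and Yoshida for quotient singularities.

`Inv G` is the ring of the power series invariant under the linear group `G`. -/

set_option autoImplicit false

namespace Pool.Agent.Results.MP_1bbd88_ag.QuotientSingularities

open Filter Topology Module

/-- The algebraic closure of the field with `p` elements. -/
abbrev K (p : ℕ) [Fact p.Prime] : Type := AlgebraicClosure (ZMod p)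

/-- The bracket power `I^[q]`: the ideal generated by the `q`-th powers of the elements of `I`. -/
def Bracket {A : Type} [CommRing A] (I : Ideal A) (q : ℕ) : Ideal A :=
  Ideal.span ((fun x => x ^ q) '' (I : Set A))

/-- The number `ℓ_A (A / m^[p^e]) / p^(e d)` for a local ring `A` with maximal ideal `m`. -/
noncomputable def hkSeq (p d : ℕ) (A : Type) [CommRing A] [IsLocalRing A] (e : ℕ) : ℝ :=
  ((Module.length A (A ⧸ Bracket (IsLocalRing.maximalIdeal A) (p ^ e))).toNat : ℝ) /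
    (p : ℝ) ^ (e * d)

/-- The substitution `f(x) ↦ f(g x)` on power series. -/
noncomputable def act {k : Type} [Field k] {d : ℕ} (g : Matrix (Fin d) (Fin d) k)
    (f : MvPowerSeries (Fin d) k) : MvPowerSeries (Fin d) k :=
  MvPowerSeries.subst (fun i => ∑ j, MvPowerSeries.C (g i j) * MvPowerSeries.X j) f

theorem act_hasSubst {k : Type} [Field k] {d : ℕ} (g : Matrix (Fin d) (Fin d) k) :
    MvPowerSeries.HasSubst (fun i => ∑ j, MvPowerSeries.C (g i j) *
      (MvPowerSeries.X j : MvPowerSeries (Fin d) k)) := by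
  refine MvPowerSeries.hasSubst_of_constantCoeff_zero fun i => ?_
  simp

/-- The ring `k[[x_1, …, x_d]]^G` of the power series invariant under `G ≤ GL_d(k)`. -/
def Inv {k : Type} [Field k] {d : ℕ} (G : Subgroup (GL (Fin d) k)) :
    Subring (MvPowerSeries (Fin d) k) where
  carrier := {f | ∀ g ∈ G, act g.val f = f}
  mul_mem' := fun {a b} ha hb g hg => by
    rw [act, MvPowerSeries.subst_mul (act_hasSubst _)]
    exact congrArg₂ _ (ha g hg) (hb g hg)
  add_mem' := fun {a b} ha hb g hg => by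
    rw [act, MvPowerSeries.subst_add (act_hasSubst _)]
    exact congrArg₂ _ (ha g hg) (hb g hg)
  one_mem' := fun g _ => by
    rw [act, ← MvPowerSeries.coe_substAlgHom (act_hasSubst _), map_one]
  zero_mem' := fun g _ => by
    rw [act, ← MvPowerSeries.coe_substAlgHom (act_hasSubst _), map_zero]
  neg_mem' := fun {a} ha g hg => by
    rw [act, ← MvPowerSeries.coe_substAlgHom (act_hasSubst _), map_neg]
    have := ha g hg
    rw [act, ← MvPowerSeries.coe_substAlgHom (act_hasSubst _)] at this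
    rw [this]

/-- The ring `A_{p,d} = K[[X_0, …, X_d]] / (X_0^2 + … + X_d^2)`. -/
abbrev Apd (p : ℕ) [Fact p.Prime] (d : ℕ) : Type :=
  MvPowerSeries (Fin (d + 1)) (K p) ⧸
    Ideal.span {∑ i : Fin (d + 1), (MvPowerSeries.X i : MvPowerSeries (Fin (d + 1)) (K p)) ^ 2}

instance (p : ℕ) [Fact p.Prime] (d : ℕ) : IsLocalRing (Apd p d) := by
  have h1 : Ideal.span {∑ i : Fin (d + 1), (MvPowerSeries.X i :
      MvPowerSeries (Fin (d + 1)) (K p)) ^ 2} ≤
      RingHom.ker (MvPowerSeries.constantCoeff (σ := Fin (d + 1)) (R := K p)) := by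
    rw [Ideal.span_le, Set.singleton_subset_iff, SetLike.mem_coe, RingHom.mem_ker, map_sum]
    refine Finset.sum_eq_zero fun i _ => ?_
    rw [map_pow, MvPowerSeries.constantCoeff_X]
    exact zero_pow (by norm_num)
  have h2 : Nontrivial (Apd p d) := by
    apply Ideal.Quotient.nontrivial_iff.mpr
    intro h
    rw [h, top_le_iff] at h1
    have h3 : (1 : MvPowerSeries (Fin (d + 1)) (K p)) ∈ RingHom.ker
        (MvPowerSeries.constantCoeff (σ := Fin (d + 1)) (R := K p)) := by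
      rw [h1]
      trivial
    rw [RingHom.mem_ker, map_one] at h3
    exact one_ne_zero h3
  exact IsLocalRing.of_surjective' (Ideal.Quotient.mk _) Ideal.Quotient.mk_surjective

/-- Let `p > 2`, `d ≥ 7`, and let `G ≠ 1` be a finite subgroup of `GL_d(K p)` of order prime to `p`,
without pseudo-reflections. If the Hilbert-Kunz multiplicities `c` of `A = K[[x]]^G` and `c'` of
`A_{p,d}` are the limits, then `c' ≤ 8 / 7 < 55 / 48 ≤ c`. -/
theorem result (p : ℕ) [Fact p.Prime] (hp : 2 < p) (d : ℕ) (hd : 7 ≤ d)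
    (G : Subgroup (GL (Fin d) (K p))) [Finite G] (hG : ¬ p ∣ Nat.card G)
    (hrefl : ∀ g ∈ G, (g.val - 1).rank ≠ 1)
    (hne : G ≠ ⊥)
    (A : Type) [CommRing A] [IsLocalRing A] (φ : Inv G ≃+* A) :
    (∀ ε : ℝ, 0 < ε → ∀ᶠ e in atTop, 55 / 48 - ε ≤ hkSeq p d A e) ∧
    (∀ ε : ℝ, 0 < ε → ∀ᶠ e in atTop, hkSeq p d (Apd p d) e ≤ 8 / 7 + ε) := by
  have hp2 : p ≠ 2 := by omega
  have hp1 : 1 < p := by omega
  have hchar : CharP (K p) p := inferInstance
  have hGK : (Nat.card G : K p) ≠ 0 := by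
    rw [Ne, CharP.cast_eq_zero_iff (K p) p]
    exact hG
  have h7 : (7 : ℝ) ≤ d := by exact_mod_cast hd
  -- `q = p ^ e → ∞`
  have hqt : Tendsto (fun e : ℕ => (p : ℝ) ^ e) atTop atTop :=
    tendsto_pow_atTop_atTop_of_one_lt (by exact_mod_cast hp1)
  constructor
  · intro ε hε
    have h1 := Pool.Agent.Lib.MP_1bbd88_ag.Q.main_ineq2 G hGK (fun g hg _ => hrefl g hg) hne
    obtain ⟨c, hc⟩ := Pool.Agent.Lib.MP_1bbd88_ag.Q.QG (p := p) (by omega) G hGK (A := A) φ
    have hcard : 0 < Nat.card G := Nat.card_pos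
    have hbig : ∀ᶠ e in atTop, (c : ℝ) / (Nat.card G * ε) ≤ (p : ℝ) ^ e :=
      hqt.eventually_ge_atTop _
    filter_upwards [hbig] with e he
    have h2 := hc e
    set len := (Module.length A (A ⧸ Pool.Agent.Lib.MP_1bbd88_ag.bracket
      (IsLocalRing.maximalIdeal A) (p ^ e))).toNat with hlen
    have h3 : hkSeq p d A e = (len : ℝ) / (p : ℝ) ^ (e * d) := rfl
    set q : ℝ := (p : ℝ) ^ e with hq
    have hqpos : 0 < q := by positivity
    have hNG : (0 : ℝ) < Nat.card G := by exact_mod_cast hcard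
    have h4 : (q : ℝ) ^ d * (Pool.Agent.Lib.MP_1bbd88_ag.Q.N G : ℝ) ≤
        Nat.card G * len + c * q ^ (d - 1) := by
      rw [hq]
      exact_mod_cast h2
    have h5 : (55 : ℝ) * Nat.card G ≤ 48 * (Pool.Agent.Lib.MP_1bbd88_ag.Q.N G : ℝ) := by
      exact_mod_cast h1
    have h6 : (c : ℝ) ≤ q * (Nat.card G * ε) := by
      rwa [div_le_iff₀ (by positivity)] at he
    obtain ⟨d', rfl⟩ : ∃ d', d = d' + 1 := ⟨d - 1, by omega⟩
    have h8 : (p : ℝ) ^ (e * (d' + 1)) = q ^ (d' + 1) := by rw [hq, pow_mul]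
    rw [h3, h8, le_div_iff₀ (by positivity)]
    rw [Nat.add_sub_cancel] at h4
    have h9 : (c : ℝ) * q ^ d' ≤ q ^ (d' + 1) * (Nat.card G * ε) := by
      calc (c : ℝ) * q ^ d' ≤ (q * (Nat.card G * ε)) * q ^ d' :=
            mul_le_mul_of_nonneg_right h6 (by positivity)
        _ = q ^ (d' + 1) * (Nat.card G * ε) := by ring
    have h10 : q ^ (d' + 1) * (55 * Nat.card G) ≤
        q ^ (d' + 1) * (48 * (Pool.Agent.Lib.MP_1bbd88_ag.Q.N G : ℝ)) :=
      mul_le_mul_of_nonneg_left h5 (by positivity)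
    have h11 : (Nat.card G : ℝ) * ((55 / 48 - ε) * q ^ (d' + 1)) ≤ Nat.card G * len := by
      nlinarith
    exact le_of_mul_le_mul_left h11 hNG
  · intro ε hε
    obtain ⟨d', rfl⟩ : ∃ d', d = d' + 7 := ⟨d - 7, by omega⟩
    obtain ⟨i, hi⟩ : ∃ i : K p, i ^ 2 = -1 := IsAlgClosed.exists_pow_nat_eq (-1 : K p) (by norm_num)
    have hlim : Tendsto (fun e : ℕ => 8 / 7 * (1 + 1 / (p : ℝ) ^ e) ^ 7) atTop (𝓝 (8 / 7)) := by
      have h1 : Tendsto (fun e : ℕ => 1 / (p : ℝ) ^ e) atTop (𝓝 0) := by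
        simp_rw [one_div]
        exact hqt.inv_tendsto_atTop
      have h2 := (((tendsto_const_nhds (x := (1 : ℝ))).add h1).pow 7).const_mul (8 / 7)
      simpa using h2
    have hev : ∀ᶠ e in atTop, 8 / 7 * (1 + 1 / (p : ℝ) ^ e) ^ 7 < 8 / 7 + ε :=
      hlim.eventually (gt_mem_nhds (by linarith))
    filter_upwards [hev] with e he
    have h1 := Pool.Agent.Lib.MP_1bbd88_ag.quad8_upper (k := K p) (p := p) hp2 hi e d'
    have h2 := Pool.Agent.Lib.MP_1bbd88_ag.length_quot (k := K p) (N := d' + 8) (p := p) (e := e)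
      (A := Apd p (d' + 7)) (Ideal.Quotient.mk _) Ideal.Quotient.mk_surjective
    rw [Ideal.mk_ker] at h2
    have h3 : hkSeq p (d' + 7) (Apd p (d' + 7)) e = ((Module.length (Apd p (d' + 7))
      (Apd p (d' + 7) ⧸ Pool.Agent.Lib.MP_1bbd88_ag.bracket
        (IsLocalRing.maximalIdeal (Apd p (d' + 7))) (p ^ e))).toNat : ℝ) /
          (p : ℝ) ^ (e * (d' + 7)) := rfl
    refine le_trans ?_ he.le
    rw [h3, h2, ENat.toNat_natCast, div_le_iff₀ (by positivity), pow_mul]
    set r := finrank (K p) (MvPowerSeries (Fin (d' + 8)) (K p) ⧸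
      (Ideal.span {∑ i, MvPowerSeries.X i ^ 2} ⊔
        Pool.Agent.Lib.MP_1bbd88_ag.psI (Fin (d' + 8)) (K p) (p ^ e))) with hr
    set q : ℝ := (p : ℝ) ^ e with hq
    have hqpos : 0 < q := by positivity
    have h4 : 7 * (r : ℝ) ≤ 8 * (q + 1) ^ 7 * q ^ d' := by
      rw [hq]
      exact_mod_cast h1
    have h5 : 8 / 7 * (1 + 1 / q) ^ 7 * q ^ (d' + 7) = 8 / 7 * ((q + 1) ^ 7 * q ^ d') := by
      have : (1 + 1 / q) = (q + 1) / q := by field_simp
      rw [this, div_pow, pow_add]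
      field_simp
    rw [h5]
    linarith

end Pool.Agent.Results.MP_1bbd88_ag.QuotientSingularities
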