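import Pool.Agent.Lib.MP_1bbd88_ag.S.X3
import Pool.Agent.Lib.MP_1bbd88_ag.S.N2
import Pool.Agent.Lib.MP_1bbd88_ag.S.R1
import Pool.Agent.Lib.MP_1bbd88_ag.S.R2
import Pool.Agent.Lib.MP_1bbd88_ag.S.R3

/-! The inequality of Watanabe and Yoshida for the rings `R / (f_1, …, f_c)`, where `R` is an
arbitrary complete local ring and `f_1, …, f_c` are degenerate along a valuation. -/

set_option autoImplicit false

namespace Pool.Agent.Results.MP_1bbd88_ag.Sections

open Filter Topology Module IsLocalRing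

/-- The algebraic closure of the field with `p` elements. -/
abbrev K (p : ℕ) [Fact p.Prime] : Type := AlgebraicClosure (ZMod p)

/-- The bracket power `I^[q]`: the ideal generated by the `q`-th powers of the elements of `I`. -/
def Bracket {A : Type} [CommRing A] (I : Ideal A) (q : ℕ) : Ideal A :=
  Ideal.span ((fun x => x ^ q) '' (I : Set A))

/-- The number `ℓ_A (A / m^[p^e]) / p^(e d)` for a local ring `A` with maximal ideal `m`. -/
noncomputable def hkSeq (p d : ℕ) (A : Type) [CommRing A] [IsLocalRing A] (e : ℕ) : ℝ :=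
  ((Module.length A (A ⧸ Bracket (IsLocalRing.maximalIdeal A) (p ^ e))).toNat : ℝ) /
    (p : ℝ) ^ (e * d)

/-- The ring `A_{p,d} = K[[X_0, …, X_d]] / (X_0^2 + … + X_d^2)`. -/
abbrev Apd (p : ℕ) [Fact p.Prime] (d : ℕ) : Type :=
  MvPowerSeries (Fin (d + 1)) (K p) ⧸
    Ideal.span {∑ i : Fin (d + 1), (MvPowerSeries.X i : MvPowerSeries (Fin (d + 1)) (K p)) ^ 2}

instance (p : ℕ) [Fact p.Prime] (d : ℕ) : IsLocalRing (Apd p d) := by
  have h1 : Ideal.span {∑ i : Fin (d + 1), (MvPowerSeries.X i :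
      MvPowerSeries (Fin (d + 1)) (K p)) ^ 2} ≤
      RingHom.ker (MvPowerSeries.constantCoeff (σ := Fin (d + 1)) (R := K p)) := by
    rw [Ideal.span_le, Set.singleton_subset_iff, SetLike.mem_coe, RingHom.mem_ker, map_sum]
    refine Finset.sum_eq_zero fun i _ => ?_
    rw [map_pow, MvPowerSeries.constantCoeff_X]
    exact zero_pow (by norm_num)
  have h2 : Nontrivial (Apd p d) := by
    apply Ideal.Quotient.nontrivial_iff.mpr
    intro h
    rw [h, top_le_iff] at h1
    have h3 : (1 : MvPowerSeries (Fin (d + 1)) (K p)) ∈ RingHom.ker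
        (MvPowerSeries.constantCoeff (σ := Fin (d + 1)) (R := K p)) := by
      rw [h1]
      trivial
    rw [RingHom.mem_ker, map_one] at h3
    exact one_ne_zero h3
  exact IsLocalRing.of_surjective' (Ideal.Quotient.mk _) Ideal.Quotient.mk_surjective

/-- The valuation ring `V` of the field `F ⊇ R` dominates the local ring `R`: it contains `R`, and
the non-units of `R` are non-units of `V`. -/
def Dominates (R F : Type) [CommRing R] [Field F] [Algebra R F] (V : ValuationSubring F) : Prop :=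
  (∀ a : R, algebraMap R F a ∈ V) ∧ ∀ a : R, ¬ IsUnit a → algebraMap R F a ∈ V.nonunits

/-- The elements `f_1, …, f_c` of `R` are degenerate along the valuation ring `V` of `F`: for all
derivations `δ_1, …, δ_c` of `R` with values in `V` the determinant of the matrix `δ_i (f_j)` lies
in the maximal ideal of `V`. -/
def Degenerate (R F : Type) [CommRing R] [Field F] [Algebra R F] (V : ValuationSubring F)
    {c : ℕ} (f : Fin c → R) : Prop :=
  ∀ δ : Fin c → Derivation ℤ R F, (∀ i a, δ i a ∈ V) →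
    (Matrix.of fun i j => δ i (f j)).det ∈ V.nonunits

section

variable {k : Type} [Field k] {n : ℕ}

theorem constantCoeff_eq_zero {g : MvPowerSeries (Fin n) k}
    (hg : g ∈ maximalIdeal (MvPowerSeries (Fin n) k)) : MvPowerSeries.constantCoeff g = 0 := by
  by_contra hne
  exact (mem_nonunits_iff.mp ((mem_maximalIdeal _).mp hg))
    (MvPowerSeries.isUnit_iff_constantCoeff.mpr (Ne.isUnit hne))

theorem finrank_mono (q : ℕ) {I J : Ideal (MvPowerSeries (Fin n) k)} (h : I ≤ J) :
    finrank k (MvPowerSeries (Fin n) k ⧸ (J ⊔ Pool.Agent.Lib.MP_1bbd88_ag.psI (Fin n) k q)) ≤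
      finrank k (MvPowerSeries (Fin n) k ⧸
        (I ⊔ Pool.Agent.Lib.MP_1bbd88_ag.psI (Fin n) k q)) := by
  have h1 : I ⊔ Pool.Agent.Lib.MP_1bbd88_ag.psI (Fin n) k q ≤
      J ⊔ Pool.Agent.Lib.MP_1bbd88_ag.psI (Fin n) k q := sup_le_sup_right h _
  have h0 : Pool.Agent.Lib.MP_1bbd88_ag.psI (Fin n) k q ≤
      I ⊔ Pool.Agent.Lib.MP_1bbd88_ag.psI (Fin n) k q := le_sup_right
  have hfin : FiniteDimensional k (MvPowerSeries (Fin n) k ⧸
      (I ⊔ Pool.Agent.Lib.MP_1bbd88_ag.psI (Fin n) k q)) :=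
    Module.Finite.of_surjective (Ideal.Quotient.factorₐ k h0).toLinearMap
      (Ideal.Quotient.factor_surjective h0)
  exact LinearMap.finrank_le_finrank_of_surjective
    (f := (Ideal.Quotient.factorₐ k h1).toLinearMap) (Ideal.Quotient.factor_surjective h1)

end

open Pool.Agent.Lib.MP_1bbd88_ag in
open Pool.Agent.Lib.MP_1bbd88_ag.S in
/-- the inequality of colengths -/
theorem colength_le (p : ℕ) [Fact p.Prime] (hp : 2 < p) (k : Type) [Field k] [IsAlgClosed k]
    [CharP k p] (n d c : ℕ) (hc : 0 < c)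
    (I : Ideal (MvPowerSeries (Fin n) k)) (f : Fin c → MvPowerSeries (Fin n) k)
    (hf : ∀ j, f j ∈ maximalIdeal (MvPowerSeries (Fin n) k))
    (h : (ringKrullDim (MvPowerSeries (Fin n) k ⧸ I) = (d + c : ℕ) ∧
        ∃ j, f j ∈ maximalIdeal (MvPowerSeries (Fin n) k) ^ 2 ⊔ I) ∨
      ∃ (Q : Ideal (MvPowerSeries (Fin n) k)) (_ : Q.IsPrime), I ≤ Q ∧
        ringKrullDim (MvPowerSeries (Fin n) k ⧸ Q) = (d + c : ℕ) ∧
        ∃ V : ValuationSubring (FractionRing (MvPowerSeries (Fin n) k ⧸ Q)),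
          Dominates (MvPowerSeries (Fin n) k ⧸ Q)
            (FractionRing (MvPowerSeries (Fin n) k ⧸ Q)) V ∧
          Degenerate (MvPowerSeries (Fin n) k ⧸ Q)
            (FractionRing (MvPowerSeries (Fin n) k ⧸ Q)) V fun j => Ideal.Quotient.mk Q (f j))
    (e : ℕ) :
    Nq (K p) (d + 1) (p ^ e) ≤ finrank k (MvPowerSeries (Fin n) k ⧸
      ((I ⊔ Ideal.span (Set.range f)) ⊔ psI (Fin n) k (p ^ e))) := by
  have hp2 : p ≠ 2 := by omega
  have hN : Nq (K p) (d + 1) (p ^ e) = Nq k (d + 1) (p ^ e) := by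
    let _ : Algebra (ZMod p) k := ZMod.algebra k p
    let _ : Algebra (K p) k := (IsAlgClosed.lift : K p →ₐ[ZMod p] k).toRingHom.toAlgebra
    exact (Nq_ext (K p) k (d + 1) (p ^ e)).symm
  rw [hN]
  have hf0 : ∀ j, MvPowerSeries.constantCoeff (f j) = 0 := fun j => constantCoeff_eq_zero (hf j)
  -- the main case
  have main : ∀ (Q : Ideal (MvPowerSeries (Fin n) k)) [Q.IsPrime] (_ : I ≤ Q)
      (_ : ringKrullDim (MvPowerSeries (Fin n) k ⧸ Q) = (d + c : ℕ))
      (V : ValuationSubring (FF Q)) (_ : ∀ g, jj Q g ∈ V)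
      (_ : ∀ g : MvPowerSeries (Fin n) k, MvPowerSeries.constantCoeff g = 0 →
        jj Q g ∈ V.nonunits)
      (_ : Degen (MvPowerSeries (Fin n) k ⧸ Q) (FF Q) V fun j => Ideal.Quotient.mk Q (f j)),
      Nq k (d + 1) (p ^ e) ≤ finrank k (MvPowerSeries (Fin n) k ⧸
        ((I ⊔ Ideal.span (Set.range f)) ⊔ psI (Fin n) k (p ^ e))) := by
    intro Q _ hIQ hdim V hV hm hdeg
    exact (main_ineq hp2 e Q hc hdim V hV hm f hf0 hdeg).trans
      (finrank_mono (p ^ e) (sup_le_sup_right hIQ _))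
  rcases h with ⟨hdim, j, hj⟩ | ⟨Q, hQ, hIQ, hdim, V, hV, hdeg⟩
  · obtain ⟨Q, hQ, hIQ, hdimQ⟩ := exists_prime I (d + c) hdim
    obtain ⟨V, hV, hm⟩ := exists_dominating Q
    exact main Q hIQ hdimQ V hV hm
      (degenerate_of_sq Q V hV hm f j (sup_le_sup_left hIQ _ hj))
  · refine main Q hIQ hdim V (fun g => hV.1 (Ideal.Quotient.mk Q g))
      (fun g hg => hV.2 (Ideal.Quotient.mk Q g) ?_) hdeg
    intro hu
    have h1 : Nontrivial (MvPowerSeries (Fin n) k ⧸ Q) := inferInstance
    obtain ⟨b, hb⟩ := hu.exists_right_inv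
    obtain ⟨b, rfl⟩ := Ideal.Quotient.mk_surjective b
    have h2 : IsUnit (1 - g * b) := by
      rw [MvPowerSeries.isUnit_iff_constantCoeff]
      simp [hg]
    have h3 := h2.map (Ideal.Quotient.mk Q)
    rw [map_sub, map_one, map_mul, hb, sub_self] at h3
    exact not_isUnit_zero h3

/-- Let `p > 2`, let `k` be an algebraically closed field of characteristic `p`, let
`R = k[[x_1, …, x_n]] / I` and `A = R / (f_1, …, f_c)` with `c ≥ 1`, `f_j` in the maximal ideal and
`dim A = d`. Suppose that `dim R = d + c` and one of the `f_j` lies in `m_R ^ 2`, or that there are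
a prime ideal `Q` of `R` with `dim R / Q = d + c` and a valuation ring dominating `R / Q` along
which `f_1, …, f_c` are degenerate. Then `ℓ(A / m^[q]) ≥ ℓ(A_{p,d} / m^[q])` for all `q = p ^ e`. -/
theorem result (p : ℕ) [Fact p.Prime] (hp : 2 < p) (k : Type) [Field k] [IsAlgClosed k]
    [CharP k p] (n d c : ℕ) (hc : 0 < c)
    (I : Ideal (MvPowerSeries (Fin n) k)) (f : Fin c → MvPowerSeries (Fin n) k)
    (hf : ∀ j, f j ∈ maximalIdeal (MvPowerSeries (Fin n) k))
    (h : (ringKrullDim (MvPowerSeries (Fin n) k ⧸ I) = (d + c : ℕ) ∧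
        ∃ j, f j ∈ maximalIdeal (MvPowerSeries (Fin n) k) ^ 2 ⊔ I) ∨
      ∃ (Q : Ideal (MvPowerSeries (Fin n) k)) (_ : Q.IsPrime), I ≤ Q ∧
        ringKrullDim (MvPowerSeries (Fin n) k ⧸ Q) = (d + c : ℕ) ∧
        ∃ V : ValuationSubring (FractionRing (MvPowerSeries (Fin n) k ⧸ Q)),
          Dominates (MvPowerSeries (Fin n) k ⧸ Q)
            (FractionRing (MvPowerSeries (Fin n) k ⧸ Q)) V ∧
          Degenerate (MvPowerSeries (Fin n) k ⧸ Q)
            (FractionRing (MvPowerSeries (Fin n) k ⧸ Q)) V fun j => Ideal.Quotient.mk Q (f j))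
    (A : Type) [CommRing A] [IsLocalRing A] (_ : ringKrullDim A = d)
    (φ : (MvPowerSeries (Fin n) k ⧸ (I ⊔ Ideal.span (Set.range f))) ≃+* A) :
    (∀ e, hkSeq p d (Apd p d) e ≤ hkSeq p d A e) ∧
    ∀ x y : ℝ, Tendsto (hkSeq p d (Apd p d)) atTop (𝓝 x) → Tendsto (hkSeq p d A) atTop (𝓝 y) →
      x ≤ y := by
  have hchar : CharP (K p) p := inferInstance
  have key : ∀ e, hkSeq p d (Apd p d) e ≤ hkSeq p d A e := by
    intro e
    have h1 := colength_le p hp k n d c hc I f hf h e
    have h2 := Pool.Agent.Lib.MP_1bbd88_ag.length_quot (k := k) (p := p) (e := e)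
      ((φ : _ →+* A).comp (Ideal.Quotient.mk (I ⊔ Ideal.span (Set.range f))))
      (φ.surjective.comp Ideal.Quotient.mk_surjective)
    have hker : RingHom.ker ((φ : _ →+* A).comp
        (Ideal.Quotient.mk (I ⊔ Ideal.span (Set.range f)))) = I ⊔ Ideal.span (Set.range f) := by
      ext x
      rw [RingHom.mem_ker, RingHom.comp_apply]
      change φ (Ideal.Quotient.mk (I ⊔ Ideal.span (Set.range f)) x) = 0 ↔ _
      rw [map_eq_zero_iff φ φ.injective, Ideal.Quotient.eq_zero_iff_mem]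
    rw [hker] at h2
    have h3 := Pool.Agent.Lib.MP_1bbd88_ag.length_quot (k := K p) (p := p) (e := e)
      (A := Apd p d) (Ideal.Quotient.mk _) Ideal.Quotient.mk_surjective
    rw [Ideal.mk_ker, Pool.Agent.Lib.MP_1bbd88_ag.S.finrank_quadric (K p) (d + 1) (p ^ e)] at h3
    have h4 : (Module.length (Apd p d) (Apd p d ⧸ Bracket (maximalIdeal (Apd p d)) (p ^ e))).toNat ≤
        (Module.length A (A ⧸ Bracket (maximalIdeal A) (p ^ e))).toNat := by
      have h5 : (Module.length A (A ⧸ Bracket (maximalIdeal A) (p ^ e))).toNat =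
          finrank k (MvPowerSeries (Fin n) k ⧸ ((I ⊔ Ideal.span (Set.range f)) ⊔
            Pool.Agent.Lib.MP_1bbd88_ag.psI (Fin n) k (p ^ e))) := by
        have := congrArg ENat.toNat h2
        rw [ENat.toNat_natCast] at this
        exact this
      have h6 : (Module.length (Apd p d)
          (Apd p d ⧸ Bracket (maximalIdeal (Apd p d)) (p ^ e))).toNat =
          Pool.Agent.Lib.MP_1bbd88_ag.S.Nq (K p) (d + 1) (p ^ e) := by
        have := congrArg ENat.toNat h3
        rw [ENat.toNat_natCast] at this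
        exact this
      rw [h5, h6]
      exact h1
    unfold hkSeq
    exact div_le_div_of_nonneg_right (by exact_mod_cast h4) (by positivity)
  exact ⟨key, fun x y hx hy => le_of_tendsto_of_tendsto' hx hy key⟩

end Pool.Agent.Results.MP_1bbd88_ag.Sections
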