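import Pool.Agent.Lib.MP_1bbd88_ag.T.N4
import Pool.Agent.Lib.MP_1bbd88_ag.U.U14
import Pool.Agent.Lib.MP_1bbd88_ag.T.Y1
import Pool.Agent.Lib.MP_1bbd88_ag.S.N2

/-! Uniqueness of the quadric among complete intersections, and the gap above it. -/

set_option autoImplicit false

namespace Pool.Agent.Results.MP_1bbd88_ag.Uniqueness

open Filter Topology Module IsLocalRing

/-- The bracket power `I^[q]`: the ideal generated by the `q`-th powers of the elements of `I`. -/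
def Bracket {A : Type} [CommRing A] (I : Ideal A) (q : ℕ) : Ideal A :=
  Ideal.span ((fun x => x ^ q) '' (I : Set A))

/-- The number `ℓ_A (A / m^[p^e]) / p^(e d)` for a local ring `A` with maximal ideal `m`. -/
noncomputable def hkSeq (p d : ℕ) (A : Type) [CommRing A] [IsLocalRing A] (e : ℕ) : ℝ :=
  ((Module.length A (A ⧸ Bracket (IsLocalRing.maximalIdeal A) (p ^ e))).toNat : ℝ) /
    (p : ℝ) ^ (e * d)

/-- The ring `k[[X_0, …, X_d]] / (X_0^2 + … + X_d^2)`. -/
abbrev Quad (k : Type) [Field k] (d : ℕ) : Type :=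
  MvPowerSeries (Fin (d + 1)) k ⧸
    Ideal.span {∑ i : Fin (d + 1), (MvPowerSeries.X i : MvPowerSeries (Fin (d + 1)) k) ^ 2}

/-- The ring `k[[X_0, …, X_d]] / (X_0^2 + … + X_{d-1}^2 + X_d^3)`. -/
abbrev Cusp (k : Type) [Field k] (d : ℕ) : Type :=
  MvPowerSeries (Fin (d + 1)) k ⧸
    Ideal.span {∑ i : Fin d, (MvPowerSeries.X i.castSucc : MvPowerSeries (Fin (d + 1)) k) ^ 2 +
      (MvPowerSeries.X (Fin.last d) : MvPowerSeries (Fin (d + 1)) k) ^ 3}

theorem isLocalRing_quot {k : Type} [Field k] {n : ℕ} (g : MvPowerSeries (Fin n) k)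
    (hg : MvPowerSeries.constantCoeff g = 0) :
    IsLocalRing (MvPowerSeries (Fin n) k ⧸ Ideal.span {g}) := by
  have h1 : Ideal.span {g} ≤ RingHom.ker (MvPowerSeries.constantCoeff (σ := Fin n) (R := k)) := by
    rw [Ideal.span_le, Set.singleton_subset_iff, SetLike.mem_coe, RingHom.mem_ker, hg]
  have h2 : Nontrivial (MvPowerSeries (Fin n) k ⧸ Ideal.span {g}) := by
    apply Ideal.Quotient.nontrivial_iff.mpr
    intro h
    rw [h, top_le_iff] at h1
    have h3 : (1 : MvPowerSeries (Fin n) k) ∈ RingHom.ker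
        (MvPowerSeries.constantCoeff (σ := Fin n) (R := k)) := by
      rw [h1]
      trivial
    rw [RingHom.mem_ker, map_one] at h3
    exact one_ne_zero h3
  exact IsLocalRing.of_surjective' (Ideal.Quotient.mk _) Ideal.Quotient.mk_surjective

instance (k : Type) [Field k] (d : ℕ) : IsLocalRing (Quad k d) := by
  refine isLocalRing_quot _ ?_
  rw [map_sum]
  refine Finset.sum_eq_zero fun i _ => ?_
  rw [map_pow, MvPowerSeries.constantCoeff_X]
  exact zero_pow (by norm_num)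

instance (k : Type) [Field k] (d : ℕ) : IsLocalRing (Cusp k d) := by
  refine isLocalRing_quot _ ?_
  rw [map_add, map_sum, map_pow, MvPowerSeries.constantCoeff_X, zero_pow (by norm_num), add_zero]
  refine Finset.sum_eq_zero fun i _ => ?_
  rw [map_pow, MvPowerSeries.constantCoeff_X]
  exact zero_pow (by norm_num)

open Pool.Agent.Lib.MP_1bbd88_ag in
theorem toNat_length {p : ℕ} [Fact p.Prime] {k : Type} [Field k] [CharP k p] {n : ℕ} (e : ℕ)
    (J : Ideal (MvPowerSeries (Fin n) k)) {A : Type} [CommRing A] [IsLocalRing A]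
    (φ : (MvPowerSeries (Fin n) k ⧸ J) ≃+* A) :
    (Module.length A (A ⧸ Bracket (maximalIdeal A) (p ^ e))).toNat =
      finrank k (MvPowerSeries (Fin n) k ⧸ (J ⊔ psI (Fin n) k (p ^ e))) := by
  have h2 := length_quot (k := k) (p := p) (e := e)
    ((φ : _ →+* A).comp (Ideal.Quotient.mk J))
    (φ.surjective.comp Ideal.Quotient.mk_surjective)
  have hker : RingHom.ker ((φ : _ →+* A).comp (Ideal.Quotient.mk J)) = J := by
    ext x
    rw [RingHom.mem_ker, RingHom.comp_apply]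
    change φ (Ideal.Quotient.mk J x) = 0 ↔ _
    rw [map_eq_zero_iff φ φ.injective, Ideal.Quotient.eq_zero_iff_mem]
  rw [hker] at h2
  have := congrArg ENat.toNat h2
  rw [ENat.toNat_natCast] at this
  exact this

/-- Let `p > 2`, `k` an algebraically closed field of characteristic `p`, `d ≥ 2`. The
Hilbert-Kunz multiplicity of the `A_2` singularity `Cusp k d` is larger than that of the quadric
`Quad k d`. Let `A` be a local ring of dimension `d` which is
(a) `k[[x_1, …, x_n]] / (f_1, …, f_c)` with `n = d + c`, `c ≥ 1`, `f_j ∈ m ^ 2`, or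
(b) `R / f R` with `R` a normal domain, not regular, a quotient of a power series ring over `k`,
`dim R = d + 1`, `f ∈ m_R ^ 2`.
If `A` is not isomorphic to the quadric, then `ℓ (A / m^[q]) ≥ ℓ (Cusp / m^[q])` for all
`q = p ^ e`. In particular `A` is isomorphic to the quadric if its Hilbert-Kunz multiplicity is
that of the quadric. -/
theorem result (p : ℕ) [Fact p.Prime] (hp : 2 < p) (k : Type) [Field k] [IsAlgClosed k]
    [CharP k p] (d : ℕ) (hd : 2 ≤ d) :
    (∃ ε : ℝ, 0 < ε ∧ ∀ᶠ e in atTop, hkSeq p d (Quad k d) e + ε ≤ hkSeq p d (Cusp k d) e) ∧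
    ∀ (A : Type) [CommRing A] [IsLocalRing A] (_ : ringKrullDim A = d)
      (_ : (∃ (c : ℕ) (f : Fin c → MvPowerSeries (Fin (d + c)) k), 0 < c ∧
          (∀ j, f j ∈ maximalIdeal (MvPowerSeries (Fin (d + c)) k) ^ 2) ∧
          Nonempty ((MvPowerSeries (Fin (d + c)) k ⧸ Ideal.span (Set.range f)) ≃+* A)) ∨
        ∃ (n : ℕ) (Q : Ideal (MvPowerSeries (Fin n) k)) (f : MvPowerSeries (Fin n) k),
          Q.IsPrime ∧ IsIntegrallyClosed (MvPowerSeries (Fin n) k ⧸ Q) ∧
          ¬ IsRegularLocalRing (MvPowerSeries (Fin n) k ⧸ Q) ∧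
          ringKrullDim (MvPowerSeries (Fin n) k ⧸ Q) = (d + 1 : ℕ) ∧
          f ∈ maximalIdeal (MvPowerSeries (Fin n) k) ^ 2 ⊔ Q ∧
          Nonempty ((MvPowerSeries (Fin n) k ⧸ (Q ⊔ Ideal.span {f})) ≃+* A)),
      (¬ Nonempty (A ≃+* Quad k d) → ∀ e, hkSeq p d (Cusp k d) e ≤ hkSeq p d A e) ∧
      ∀ x : ℝ, Tendsto (hkSeq p d (Quad k d)) atTop (𝓝 x) →
        Tendsto (hkSeq p d A) atTop (𝓝 x) → Nonempty (A ≃+* Quad k d) := by
  have hp2 : p ≠ 2 := by omega
  have hp1 : 1 < p := by omega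
  have hpe : ∀ e : ℕ, (0 : ℝ) < (p : ℝ) ^ (e * d) := fun e => by positivity
  have hQ : ∀ e, hkSeq p d (Quad k d) e =
      (Pool.Agent.Lib.MP_1bbd88_ag.T.D2 (Pool.Agent.Lib.MP_1bbd88_ag.T.ph k d (p ^ e))
        (p ^ e) : ℝ) / (p : ℝ) ^ (e * d) := by
    intro e
    unfold hkSeq
    rw [toNat_length (p := p) (k := k) e _ (RingEquiv.refl (Quad k d)),
      Pool.Agent.Lib.MP_1bbd88_ag.S.finrank_quadric, Pool.Agent.Lib.MP_1bbd88_ag.T.Nq_eq]
  have hC : ∀ e, hkSeq p d (Cusp k d) e =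
      (Pool.Agent.Lib.MP_1bbd88_ag.T.D3 (Pool.Agent.Lib.MP_1bbd88_ag.T.ph k d (p ^ e))
        (p ^ e) : ℝ) / (p : ℝ) ^ (e * d) := by
    intro e
    unfold hkSeq
    rw [toNat_length (p := p) (k := k) e _ (RingEquiv.refl (Cusp k d)),
      Pool.Agent.Lib.MP_1bbd88_ag.T.cusp_ps (k := k) d (p ^ e) (by positivity)]
  have hgap : ∃ ε : ℝ, 0 < ε ∧
      ∀ᶠ e in atTop, hkSeq p d (Quad k d) e + ε ≤ hkSeq p d (Cusp k d) e := by
    obtain ⟨ι, hι⟩ := IsAlgClosed.exists_pow_nat_eq (-1 : k) (n := 2) (by norm_num)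
    obtain ⟨ε, e0, hε, h⟩ := Pool.Agent.Lib.MP_1bbd88_ag.T.gap (k := k) (p := p) hp2 hι d hd
    refine ⟨ε, hε, ?_⟩
    filter_upwards [eventually_ge_atTop e0] with e he
    rw [hQ e, hC e, div_add' _ _ _ (hpe e).ne']
    refine div_le_div_of_nonneg_right ?_ (hpe e).le
    have h1 := h e he
    rwa [← pow_mul] at h1
  refine ⟨hgap, ?_⟩
  intro A _ _ _ hA
  have key : ¬ Nonempty (A ≃+* Quad k d) → ∀ e, hkSeq p d (Cusp k d) e ≤ hkSeq p d A e := by
    intro hn e
    rw [hC e]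
    unfold hkSeq
    refine div_le_div_of_nonneg_right ?_ (hpe e).le
    rcases hA with ⟨c, f, hc, hf, ⟨φ⟩⟩ | ⟨n, Q, f, hQp, hQn, hQr, hQd, hf, ⟨φ⟩⟩
    · rw [toNat_length (p := p) (k := k) e _ φ]
      exact_mod_cast Pool.Agent.Lib.MP_1bbd88_ag.T.D3_le_ci (p := p) hp2 d c e hc f hf
        (fun ⟨ψ⟩ => hn ⟨φ.symm.trans ψ⟩)
    · rw [toNat_length (p := p) (k := k) e _ φ]
      exact_mod_cast Pool.Agent.Lib.MP_1bbd88_ag.U.D3_le_normal (p := p) hp2 d e Q hQr hQd f hf
  refine ⟨key, fun x hx hy => ?_⟩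
  by_contra hn
  obtain ⟨ε, hε, h⟩ := hgap
  have h1 : ∀ᶠ e in atTop, hkSeq p d (Quad k d) e + ε ≤ hkSeq p d A e := by
    filter_upwards [h] with e he
    exact he.trans (key hn e)
  have h2 := le_of_tendsto_of_tendsto (hx.add_const ε) hy h1
  linarith

end Pool.Agent.Results.MP_1bbd88_ag.Uniqueness
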